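import Mathlib
import Pool.Agent.H67.FS.Targets

set_option autoImplicit false

/-!
# CONF: existence of the configuration (MP_6f7589_ag)
-/

namespace Pool.Agent.H28.FS

open Pool.Agent.H67.FS

universe u

section Inv

set_option linter.unusedSectionVars false

variable {F : Type u} [Field F] {ι ι' : Type}

lemma vec3 (e : ι → Fin 4 → F) (a b c : ι) :
    (![e a, e b, e c] : Fin 3 → Fin 4 → F) = fun i => e (![a, b, c] i) := by
  funext i
  fin_cases i <;> rfl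

lemma vec4 (e : ι → Fin 4 → F) (a b c d : ι) :
    (![e a, e b, e c, e d] : Fin 4 → Fin 4 → F) = fun i => e (![a, b, c, d] i) := by
  funext i
  fin_cases i <;> rfl

/-- `f` preserves independence of families -/
def Pres (e : ι → Fin 4 → F) (e' : ι' → Fin 4 → F) (f : ι → ι') : Prop :=
  ∀ (s : ℕ) (g : Fin s → ι), LinearIndependent F (fun i => e' (f (g i))) ↔
    LinearIndependent F (fun i => e (g i))

variable {e : ι → Fin 4 → F} {e' : ι' → Fin 4 → F} {f : ι → ι'}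

lemma Pres.li3 (h : Pres e e' f) (a b c : ι) :
    LinearIndependent F ![e' (f a), e' (f b), e' (f c)] ↔ LinearIndependent F ![e a, e b, e c] := by
  rw [vec3 e]
  have := h 3 ![a, b, c]
  rw [← this]
  have e1 : (![e' (f a), e' (f b), e' (f c)] : Fin 3 → Fin 4 → F) =
      fun i => e' (f (![a, b, c] i)) := by
    funext i
    fin_cases i <;> rfl
  rw [e1]

lemma Pres.li4 (h : Pres e e' f) (a b c d : ι) :
    LinearIndependent F ![e' (f a), e' (f b), e' (f c), e' (f d)] ↔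
      LinearIndependent F ![e a, e b, e c, e d] := by
  rw [vec4 e]
  have := h 4 ![a, b, c, d]
  rw [← this]
  have e1 : (![e' (f a), e' (f b), e' (f c), e' (f d)] : Fin 4 → Fin 4 → F) =
      fun i => e' (f (![a, b, c, d] i)) := by
    funext i
    fin_cases i <;> rfl
  rw [e1]

lemma Pres.col (h : Pres e e' f) (a b c : ι) : Col e' (f a) (f b) (f c) ↔ Col e a b c := by
  unfold Col
  rw [h.li3]

lemma Pres.mulG (h : Pres e e' f) (hf : Function.Injective f) {o i w x y m : ι}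
    (hM : MulG e o i w x y m) : MulG e' (f o) (f i) (f w) (f x) (f y) (f m) := by
  obtain ⟨p, q, r, s, h1, h2, h3, h4, h5, c1, c2, c3, c4, c5, c6⟩ := hM
  refine ⟨f p, f q, f r, f s, (h.li3 _ _ _).2 h1, hf.ne h2, hf.ne h3, hf.ne h4, ?_,
    (h.col _ _ _).2 c1, (h.col _ _ _).2 c2, (h.col _ _ _).2 c3, (h.col _ _ _).2 c4,
    (h.col _ _ _).2 c5, (h.col _ _ _).2 c6⟩
  intro z hz
  have : ∃ z' ∈ ({o, i, w, x, y, m} : Set ι), f z' = z := by
    simp only [Set.mem_insert_iff, Set.mem_singleton_iff] at hz ⊢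
    rcases hz with rfl | rfl | rfl | rfl | rfl | rfl
    · exact ⟨o, by simp, rfl⟩
    · exact ⟨i, by simp, rfl⟩
    · exact ⟨w, by simp, rfl⟩
    · exact ⟨x, by simp, rfl⟩
    · exact ⟨y, by simp, rfl⟩
    · exact ⟨m, by simp, rfl⟩
  obtain ⟨z', hz', rfl⟩ := this
  obtain ⟨g1, g2, g3, g4⟩ := h5 z' hz'
  exact ⟨hf.ne g1, hf.ne g2, hf.ne g3, hf.ne g4⟩

lemma Pres.addG (h : Pres e e' f) (hf : Function.Injective f) {o i w x y : ι}
    (hM : AddG e o i w x y) : AddG e' (f o) (f i) (f w) (f x) (f y) := by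
  obtain ⟨p, q, r, s, h1, h2, h3, h4, h5, c1, c2, c3, c4, c5, c6⟩ := hM
  refine ⟨f p, f q, f r, f s, (h.li3 _ _ _).2 h1, hf.ne h2, hf.ne h3, hf.ne h4, ?_,
    (h.col _ _ _).2 c1, (h.col _ _ _).2 c2, (h.col _ _ _).2 c3, (h.col _ _ _).2 c4,
    (h.col _ _ _).2 c5, (h.col _ _ _).2 c6⟩
  intro z hz
  have : ∃ z' ∈ ({o, i, w, x, y} : Set ι), f z' = z := by
    simp only [Set.mem_insert_iff, Set.mem_singleton_iff] at hz ⊢
    rcases hz with rfl | rfl | rfl | rfl | rfl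
    · exact ⟨o, by simp, rfl⟩
    · exact ⟨i, by simp, rfl⟩
    · exact ⟨w, by simp, rfl⟩
    · exact ⟨x, by simp, rfl⟩
    · exact ⟨y, by simp, rfl⟩
  obtain ⟨z', hz', rfl⟩ := this
  obtain ⟨g1, g2, g3, g4⟩ := h5 z' hz'
  exact ⟨hf.ne g1, hf.ne g2, hf.ne g3, hf.ne g4⟩

/-- extension by `Sum.inl` -/
lemma pres_inl (e : ι → Fin 4 → F) {s : Type} (τ : s → Fin 4 → F) :
    Pres e (Sum.elim e τ) Sum.inl := by
  intro n g
  exact Iff.rfl

lemma Pres.deg_le (h : Pres e e' f) (hf : Function.Injective f) [Finite ι'] (a : ι) :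
    deg e a ≤ deg e' (f a) := by
  unfold deg
  have : Finite {p : ι' × ι' // p.1 ≠ p.2 ∧ p.1 ≠ f a ∧ p.2 ≠ f a ∧ Col e' (f a) p.1 p.2} := by
    infer_instance
  refine Nat.card_le_card_of_injective
    (fun p : {p : ι × ι // p.1 ≠ p.2 ∧ p.1 ≠ a ∧ p.2 ≠ a ∧ Col e a p.1 p.2} =>
      (⟨(f p.1.1, f p.1.2), hf.ne p.2.1, hf.ne p.2.2.1, hf.ne p.2.2.2.1,
        (h.col _ _ _).2 p.2.2.2.2⟩ :
        {p : ι' × ι' // p.1 ≠ p.2 ∧ p.1 ≠ f a ∧ p.2 ≠ f a ∧ Col e' (f a) p.1 p.2})) ?_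
  rintro ⟨⟨p1, p2⟩, hp⟩ ⟨⟨q1, q2⟩, hq⟩ hpq
  simp only [Subtype.mk.injEq, Prod.mk.injEq] at hpq ⊢
  exact ⟨hf hpq.1, hf hpq.2⟩

lemma Pres.deg_eq (h : Pres e e' f) (hf : Function.Injective f) (a : ι)
    (hnew : ∀ b c : ι', b ≠ c → b ≠ f a → c ≠ f a → Col e' (f a) b c →
      b ∈ Set.range f ∧ c ∈ Set.range f) :
    deg e' (f a) = deg e a := by
  unfold deg
  symm
  refine Nat.card_eq_of_bijective
    (fun p : {p : ι × ι // p.1 ≠ p.2 ∧ p.1 ≠ a ∧ p.2 ≠ a ∧ Col e a p.1 p.2} =>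
      (⟨(f p.1.1, f p.1.2), hf.ne p.2.1, hf.ne p.2.2.1, hf.ne p.2.2.2.1,
        (h.col _ _ _).2 p.2.2.2.2⟩ :
        {p : ι' × ι' // p.1 ≠ p.2 ∧ p.1 ≠ f a ∧ p.2 ≠ f a ∧ Col e' (f a) p.1 p.2})) ⟨?_, ?_⟩
  · rintro ⟨⟨p1, p2⟩, hp⟩ ⟨⟨q1, q2⟩, hq⟩ hpq
    simp only [Subtype.mk.injEq, Prod.mk.injEq] at hpq ⊢
    exact ⟨hf hpq.1, hf hpq.2⟩
  · rintro ⟨⟨b, c⟩, h1, h2, h3, h4⟩
    obtain ⟨⟨b', rfl⟩, ⟨c', rfl⟩⟩ := hnew b c h1 h2 h3 h4
    refine ⟨⟨(b', c'), fun h => h1 (congrArg f h), fun h => h2 (congrArg f h),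
      fun h => h3 (congrArg f h), (h.col _ _ _).1 h4⟩, rfl⟩

lemma Pres.gp (h : Pres e e' f) (hf : Function.Bijective f) (hG : GP e) : GP e' := by
  classical
  intro S hS
  obtain ⟨g, k, h1, h2, h3, h4⟩ := hG (S.preimage f hf.1.injOn) (by
    refine le_trans ?_ hS
    have : (S.preimage f hf.1.injOn).card = ((S.preimage f hf.1.injOn).image f).card :=
      (Finset.card_image_of_injective _ hf.1).symm
    rw [this]
    apply Finset.card_le_card
    intro z hz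
    simp only [Finset.mem_image, Finset.mem_preimage] at hz
    obtain ⟨z', hz', rfl⟩ := hz
    exact hz')
  refine ⟨f g, f k, hf.1.ne h1, by simpa using h2, by simpa using h3, ?_⟩
  intro a b hab hag hak hbg hbk
  obtain ⟨a, rfl⟩ := hf.2 a
  obtain ⟨b, rfl⟩ := hf.2 b
  exact (h.li4 _ _ _ _).2 (h4 a b (fun h => hab (congrArg f h)) (fun h => hag (congrArg f h))
    (fun h => hak (congrArg f h)) (fun h => hbg (congrArg f h)) (fun h => hbk (congrArg f h)))

end Inv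

section Line

variable {F : Type u} [Field F]

/-- vectors in a plane: three of them are dependent -/
lemma col_of_plane {ι : Type} (e : ι → Fin 4 → F) (a b c : ι)
    (h : ∀ z ∈ ({a, b, c} : Set ι), e z 2 = 0 ∧ e z 3 = 0) : Col e a b c := by
  intro hli
  let g : (Fin 2 → F) →ₗ[F] (Fin 4 → F) :=
    { toFun := fun u => ![u 0, u 1, 0, 0]
      map_add' := by
        intro u v
        funext j
        fin_cases j <;> simp
      map_smul' := by
        intro t u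
        funext j
        fin_cases j <;> simp }
  have hz : ∀ z ∈ ({a, b, c} : Set ι), e z = g ![e z 0, e z 1] := by
    intro z hz
    obtain ⟨h2, h3⟩ := h z hz
    funext j
    fin_cases j
    · simp [g]
    · simp [g]
    · simpa [g] using h2
    · simpa [g] using h3
  have e1 : (![e a, e b, e c] : Fin 3 → Fin 4 → F) =
      g ∘ (![![e a 0, e a 1], ![e b 0, e b 1], ![e c 0, e c 1]] : Fin 3 → Fin 2 → F) := by
    funext i
    fin_cases i
    · simpa using hz a (by simp)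
    · simpa using hz b (by simp)
    · simpa using hz c (by simp)
  rw [e1] at hli
  have := (LinearIndependent.of_comp g hli).fintype_card_le_finrank
  simp at this

end Line


section Main

variable {F : Type u} [Field F]

lemma Pres.trans {ι ι' ι'' : Type} {e : ι → Fin 4 → F} {e' : ι' → Fin 4 → F}
    {e'' : ι'' → Fin 4 → F} {f : ι → ι'} {g : ι' → ι''} (h : Pres e e' f) (h' : Pres e' e'' g) :
    Pres e e'' (g ∘ f) := by
  intro s k
  have := h' s (fun i => f (k i))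
  exact this.trans (h s k)

/-- homogeneous coordinates of the nine points on the line -/
def uu : Fin 9 → F := ![1, 1, 0, 1, 1, 1, 1, 1, 1]
def tt (n : ℕ) (x y : F) : Fin 9 → F := ![0, 1, 1, x, x ^ 2, x ^ n, y, y ^ 2, y ^ n]

def e00 (n : ℕ) (x y : F) (k : Fin 9) : Fin 4 → F := ![uu k, tt n x y k, 0, 0]

lemma det_ne (n : ℕ) (x y : F) (h : [0, 1, x, x ^ 2, x ^ n, y, y ^ 2, y ^ n].Nodup) (a b : Fin 9)
    (hab : a ≠ b) : uu a * tt n x y b - tt n x y a * uu b ≠ 0 := by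
  simp only [List.nodup_cons, List.mem_cons, List.not_mem_nil, not_or, or_false] at h
  obtain ⟨⟨a1, a2, a3, a4, a5, a6, a7⟩, ⟨b2, b3, b4, b5, b6, b7⟩, ⟨c3, c4, c5, c6, c7⟩,
    ⟨d4, d5, d6, d7⟩, ⟨e5, e6, e7⟩, ⟨f6, f7⟩, g7, -⟩ := h
  have key : ∀ p q : F, p ≠ q → (q - p ≠ 0) ∧ (p - q ≠ 0) := fun p q hpq =>
    ⟨sub_ne_zero.2 hpq.symm, sub_ne_zero.2 hpq⟩
  fin_cases a <;> fin_cases b <;> first
    | exact absurd rfl hab
    | (simp [uu, tt]; done)
    | (simp only [uu, tt, Fin.zero_eta, Fin.mk_one, Fin.reduceFinMk, Matrix.cons_val, one_mul,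
        mul_one, Matrix.cons_val_zero, Matrix.cons_val_one]
       first
        | exact (key _ _ (by assumption)).1
        | exact (key _ _ (by assumption)).2)

lemma pl_e00 (n : ℕ) (x y : F) (h : [0, 1, x, x ^ 2, x ^ n, y, y ^ 2, y ^ n].Nodup) :
    PL (e00 n x y) := by
  intro a b hab
  rw [LinearIndependent.pair_iff]
  intro s t hst
  have h0 := congrFun hst 0
  have h1 := congrFun hst 1
  simp [e00] at h0 h1
  have hd := det_ne n x y h a b hab
  constructor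
  · have : s * (uu a * tt n x y b - tt n x y a * uu b) = 0 := by
      linear_combination tt n x y b * h0 - uu b * h1
    exact (mul_eq_zero.1 this).resolve_right hd
  · have : t * (uu a * tt n x y b - tt n x y a * uu b) = 0 := by
      linear_combination uu a * h1 - tt n x y a * h0
    exact (mul_eq_zero.1 this).resolve_right hd

lemma ne_e00 (n : ℕ) (x y : F) (a : Fin 9) : e00 n x y a ≠ 0 := by
  intro h
  have h0 := congrFun h 0
  have h1 := congrFun h 1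
  simp only [e00, Pi.zero_apply, Matrix.cons_val_zero, Matrix.cons_val_one] at h0 h1
  fin_cases a <;> simp [uu, tt] at h0 h1

lemma col_e00 (n : ℕ) (x y : F) (a b c : Fin 9) : Col (e00 n x y) a b c :=
  col_of_plane _ _ _ _ fun _ _ => ⟨rfl, rfl⟩

lemma deg_e00 (n : ℕ) (x y : F) (p : Fin 9) : 0 < deg (e00 n x y) p := by
  unfold deg
  have hex : ∃ b c : Fin 9, b ≠ c ∧ b ≠ p ∧ c ≠ p := by revert p; decide
  obtain ⟨b, c, h1, h2, h3⟩ := hex
  have : Nonempty {q : Fin 9 × Fin 9 // q.1 ≠ q.2 ∧ q.1 ≠ p ∧ q.2 ≠ p ∧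
      Col (e00 n x y) p q.1 q.2} := ⟨⟨(b, c), h1, h2, h3, col_e00 _ _ _ _ _ _⟩⟩
  exact Nat.card_pos

end Main

/-- the state of the construction: a configuration containing the nine points -/
structure St {F : Type u} [Field F] (e0 : Fin 9 → Fin 4 → F) {ι : Type} (e : ι → Fin 4 → F)
    (f : Fin 9 → ι) : Prop where
  inj : Function.Injective f
  ef : ∀ k, e (f k) = e0 k
  pl : PL e
  ne : ∀ a, e a ≠ 0

lemma St.pres {F : Type u} [Field F] {e0 : Fin 9 → Fin 4 → F} {ι : Type} {e : ι → Fin 4 → F}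
    {f : Fin 9 → ι} (h : St e0 e f) : Pres e0 e f := by
  intro s g
  have : (fun i => e (f (g i))) = fun i => e0 (g i) := by
    funext i
    exact h.ef _
  rw [this]

lemma St.ext {F : Type u} [Field F] {e0 : Fin 9 → Fin 4 → F} {ι : Type} {e : ι → Fin 4 → F}
    {f : Fin 9 → ι} (h : St e0 e f) {s : Type} {τ : s → Fin 4 → F} (hPL : PL (Sum.elim e τ))
    (hne : ∀ j, τ j ≠ 0) : St e0 (Sum.elim e τ) (Sum.inl ∘ f) where
  inj := Sum.inl_injective.comp h.inj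
  ef := h.ef
  pl := hPL
  ne := by
    rintro (a | a)
    · exact h.ne a
    · exact hne a

lemma stepM (h1 : T_GADM.{u}) {F : Type u} [Field F] [Infinite F] {e0 : Fin 9 → Fin 4 → F}
    {ι : Type} [Fintype ι] {e : ι → Fin 4 → F} {f : Fin 9 → ι} (h : St e0 e f)
    (o i w x y m : Fin 9) (X Y : F) (hX : X ≠ 0) (hX1 : X ≠ 1) (hY : Y ≠ 0) (hY1 : Y ≠ 1)
    (how : o ≠ w) (hi : e0 i = e0 o + e0 w) (hx : e0 x = e0 o + X • e0 w)
    (hy : e0 y = e0 o + Y • e0 w) (hm : e0 m = e0 o + (X * Y) • e0 w) :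
    ∃ τ : Fin 4 → Fin 4 → F, St e0 (Sum.elim e τ) (Sum.inl ∘ f) ∧
      MulG (Sum.elim e τ) (.inl (f o)) (.inl (f i)) (.inl (f w)) (.inl (f x)) (.inl (f y))
        (.inl (f m)) := by
  obtain ⟨τ, hPL, hne, hM⟩ := h1 F ι e h.pl h.ne (f o) (f i) (f w) (f x) (f y) (f m) X Y hX hX1 hY
    hY1 (h.inj.ne how) (by simpa only [h.ef] using hi) (by simpa only [h.ef] using hx)
    (by simpa only [h.ef] using hy) (by simpa only [h.ef] using hm)
  exact ⟨τ, h.ext hPL hne, hM⟩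

lemma stepA (h2 : T_GADA.{u}) {F : Type u} [Field F] [Infinite F] {e0 : Fin 9 → Fin 4 → F}
    {ι : Type} [Fintype ι] {e : ι → Fin 4 → F} {f : Fin 9 → ι} (h : St e0 e f)
    (o i w x y : Fin 9) (X Y : F) (hX : X ≠ 0) (hY : Y ≠ 0) (hXY : X + Y = 1)
    (how : o ≠ w) (hi : e0 i = e0 o + e0 w) (hx : e0 x = e0 o + X • e0 w)
    (hy : e0 y = e0 o + Y • e0 w) :
    ∃ τ : Fin 4 → Fin 4 → F, St e0 (Sum.elim e τ) (Sum.inl ∘ f) ∧
      AddG (Sum.elim e τ) (.inl (f o)) (.inl (f i)) (.inl (f w)) (.inl (f x)) (.inl (f y)) := by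
  obtain ⟨τ, hPL, hne, hM⟩ := h2 F ι e h.pl h.ne (f o) (f i) (f w) (f x) (f y) X Y hX hY hXY
    (h.inj.ne how) (by simpa only [h.ef] using hi) (by simpa only [h.ef] using hx)
    (by simpa only [h.ef] using hy)
  exact ⟨τ, h.ext hPL hne, hM⟩

lemma mono_inlM {F : Type u} [Field F] {ι : Type} {e : ι → Fin 4 → F} {s : Type}
    (τ : s → Fin 4 → F) {o i w x y m : ι} (h : MulG e o i w x y m) :
    MulG (Sum.elim e τ) (.inl o) (.inl i) (.inl w) (.inl x) (.inl y) (.inl m) :=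
  (pres_inl e τ).mulG Sum.inl_injective h

lemma mono_inlA {F : Type u} [Field F] {ι : Type} {e : ι → Fin 4 → F} {s : Type}
    (τ : s → Fin 4 → F) {o i w x y : ι} (h : AddG e o i w x y) :
    AddG (Sum.elim e τ) (.inl o) (.inl i) (.inl w) (.inl x) (.inl y) :=
  (pres_inl e τ).addG Sum.inl_injective h

lemma finish (h3 : T_MARK.{u}) (h4 : T_GP8.{u}) (h5 : T_NORM.{u}) {F : Type u} [Field F]
    [Infinite F] (n : ℕ) (x y : F) {ι : Type} [Fintype ι] (e : ι → Fin 4 → F) (f : Fin 9 → ι)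
    (S : St (e00 n x y) e f)
    (G1 : MulG e (f 0) (f 1) (f 2) (f 3) (f 3) (f 4))
    (G2 : MulG e (f 0) (f 1) (f 2) (f 4) (f (if n = 3 then 3 else 4)) (f 5))
    (G3 : MulG e (f 0) (f 1) (f 2) (f 6) (f 6) (f 7))
    (G4 : MulG e (f 0) (f 1) (f 2) (f 7) (f (if n = 3 then 6 else 7)) (f 8))
    (A5 : AddG e (f 0) (f 1) (f 2) (f 5) (f 8)) :
    ∃ (N : ℕ) (e : Fin (N + 1) → Fin 4 → F) (o i w x1 x2 xn y1 y2 yn : Fin (N + 1)),
      (∀ a, e a 0 = 1) ∧ Function.Injective (fun a => e a 1) ∧ GP e ∧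
      [o, i, w, x1, x2, xn, y1, y2, yn].Nodup ∧ Col e o w i ∧
      Col e o w x1 ∧ Col e o w x2 ∧ Col e o w xn ∧ Col e o w y1 ∧ Col e o w y2 ∧ Col e o w yn ∧
      MulG e o i w x1 x1 x2 ∧ MulG e o i w x2 (if n = 3 then x1 else x2) xn ∧
      MulG e o i w y1 y1 y2 ∧ MulG e o i w y2 (if n = 3 then y1 else y2) yn ∧
      AddG e o i w xn yn ∧ cr e o i w x1 = x ∧ cr e o i w y1 = y ∧
      ∀ p ∈ ({o, i, w, x1, y1} : Set (Fin (N + 1))), ∀ a, a ≠ p → deg e a ≠ deg e p := by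
  classical
  -- degrees
  obtain ⟨s, hs, τ, hPL, hne, hM⟩ := h3 F ι e S.pl S.ne
    ((({0, 1, 2, 3, 6} : Finset (Fin 9)).image f)) (by
      intro p hp
      obtain ⟨k, -, rfl⟩ := Finset.mem_image.1 hp
      exact lt_of_lt_of_le (deg_e00 n x y k) (S.pres.deg_le S.inj k))
  have S6 := S.ext hPL hne
  set e6 := Sum.elim e τ with he6
  obtain ⟨τ', hPL', hne', hGP, hcol⟩ := h4 F (ι ⊕ s) e6 S6.pl S6.ne
  have S7 := S6.ext hPL' hne'
  set e7 := Sum.elim e6 τ' with he7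
  have P67 : Pres e6 e7 Sum.inl := pres_inl _ _
  have D7l : ∀ a : ι ⊕ s, deg e7 (Sum.inl a) = deg e6 a := by
    intro a
    refine P67.deg_eq Sum.inl_injective a ?_
    intro b c hbc hba hca hc
    obtain ⟨a', b', c', -, hb, hc'⟩ := hcol _ _ _ (Ne.symm hba) (Ne.symm hca) hbc hc
    exact ⟨⟨b', hb.symm⟩, ⟨c', hc'.symm⟩⟩
  have D7r : ∀ j : Fin 8, deg e7 (Sum.inr j) = 0 := by
    intro j
    unfold deg
    have : IsEmpty {p : ((ι ⊕ s) ⊕ Fin 8) × ((ι ⊕ s) ⊕ Fin 8) //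
        p.1 ≠ p.2 ∧ p.1 ≠ Sum.inr j ∧ p.2 ≠ Sum.inr j ∧ Col e7 (Sum.inr j) p.1 p.2} := by
      refine ⟨?_⟩
      rintro ⟨⟨b, c⟩, h1, h2, h3, h4⟩
      obtain ⟨a', b', c', ha, -, -⟩ := hcol _ _ _ (Ne.symm h2) (Ne.symm h3) h1 h4
      exact absurd ha (by simp)
    exact Nat.card_of_isEmpty
  -- uniqueness of degrees
  have U7 : ∀ k ∈ ({0, 1, 2, 3, 6} : Finset (Fin 9)), ∀ a : (ι ⊕ s) ⊕ Fin 8,
      a ≠ Sum.inl (Sum.inl (f k)) → deg e7 a ≠ deg e7 (Sum.inl (Sum.inl (f k))) := by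
    intro k hk a ha
    obtain ⟨hpos, huni⟩ := hM (f k) (Finset.mem_image_of_mem f hk)
    rcases a with a | a
    · rw [D7l, D7l]
      exact huni a (fun h => ha (by rw [h]))
    · rw [D7l, D7r]
      exact hpos.ne
  -- normal form
  obtain ⟨e8, h80, h81, h8li, h8cr⟩ := h5 F ((ι ⊕ s) ⊕ Fin 8) e7 S7.pl S7.ne
  have P78 : Pres e7 e8 id := by
    intro t g
    exact h8li t g
  -- reindexing
  obtain ⟨N, hN⟩ : ∃ N, Fintype.card ((ι ⊕ s) ⊕ Fin 8) = N + 1 := by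
    refine ⟨Fintype.card ((ι ⊕ s) ⊕ Fin 8) - 1, ?_⟩
    have : 0 < Fintype.card ((ι ⊕ s) ⊕ Fin 8) := Fintype.card_pos_iff.2 ⟨Sum.inr 0⟩
    omega
  let σ : ((ι ⊕ s) ⊕ Fin 8) ≃ Fin (N + 1) := Fintype.equivFinOfCardEq hN
  have P89 : Pres e8 (fun a => e8 (σ.symm a)) σ := by
    intro t g
    simp
  have P79 : Pres e7 (fun a => e8 (σ.symm a)) σ := P78.trans P89
  have D9 : ∀ a, deg (fun a => e8 (σ.symm a)) (σ a) = deg e7 a := by
    intro a
    refine P79.deg_eq σ.injective a ?_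
    intro b c _ _ _ _
    exact ⟨σ.surjective b, σ.surjective c⟩
  -- the final configuration
  have P9 : Pres e (fun a => e8 (σ.symm a)) (σ ∘ Sum.inl ∘ Sum.inl) :=
    ((pres_inl e τ).trans P67).trans P79
  have hinj : Function.Injective (σ ∘ Sum.inl ∘ Sum.inl : ι → Fin (N + 1)) :=
    σ.injective.comp (Sum.inl_injective.comp Sum.inl_injective)
  set g : Fin 9 → Fin (N + 1) := fun k => σ (Sum.inl (Sum.inl (f k))) with hg
  have ginj : Function.Injective g := hinj.comp S.inj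
  have P0 : Pres (e00 n x y) (fun a => e8 (σ.symm a)) g := S.pres.trans P9
  have hcr : ∀ (k : Fin 9) (v : F), k ≠ 2 → e00 n x y k = e00 n x y 0 + v • e00 n x y 2 →
      cr (fun a => e8 (σ.symm a)) (g 0) (g 1) (g 2) (g k) = v := by
    intro k v hk hkv
    have := h8cr (Sum.inl (Sum.inl (f 0))) (Sum.inl (Sum.inl (f 1))) (Sum.inl (Sum.inl (f 2)))
      (Sum.inl (Sum.inl (f k))) v (fun h => by simpa using S.inj (Sum.inl_injective
        (Sum.inl_injective h))) (fun h => by simpa using S.inj (Sum.inl_injective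
        (Sum.inl_injective h))) (fun h => by simpa using S.inj (Sum.inl_injective
        (Sum.inl_injective h))) (fun h => hk (S.inj (Sum.inl_injective
        (Sum.inl_injective h)))) (by
          show e (f 1) = e (f 0) + e (f 2)
          rw [S.ef, S.ef, S.ef]
          funext j; fin_cases j <;> simp [e00, uu, tt]) (by
          show e (f k) = e (f 0) + v • e (f 2)
          rw [S.ef, S.ef, S.ef]
          exact hkv)
    simpa [cr, hg] using this
  refine ⟨N, fun a => e8 (σ.symm a), g 0, g 1, g 2, g 3, g 4, g 5, g 6, g 7, g 8, fun a => h80 _,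
    ?_, ?_, ?_, (P0.col _ _ _).2 (col_e00 _ _ _ _ _ _), (P0.col _ _ _).2 (col_e00 _ _ _ _ _ _),
    (P0.col _ _ _).2 (col_e00 _ _ _ _ _ _), (P0.col _ _ _).2 (col_e00 _ _ _ _ _ _),
    (P0.col _ _ _).2 (col_e00 _ _ _ _ _ _), (P0.col _ _ _).2 (col_e00 _ _ _ _ _ _),
    (P0.col _ _ _).2 (col_e00 _ _ _ _ _ _), P9.mulG hinj G1, ?_, P9.mulG hinj G3, ?_,
    P9.addG hinj A5, ?_, ?_, ?_⟩
  · exact h81.comp σ.symm.injective
  · exact P79.gp σ.bijective hGP
  · have : [g 0, g 1, g 2, g 3, g 4, g 5, g 6, g 7, g 8] = List.ofFn g := by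
      simp [List.ofFn_succ]
    rw [this, List.nodup_ofFn]
    exact ginj
  · have := P9.mulG hinj G2
    rw [← apply_ite g (n = 3) 3 4]
    exact this
  · have := P9.mulG hinj G4
    rw [← apply_ite g (n = 3) 6 7]
    exact this
  · refine hcr 3 x (by decide) ?_
    funext j; fin_cases j <;> simp [e00, uu, tt]
  · refine hcr 6 y (by decide) ?_
    funext j; fin_cases j <;> simp [e00, uu, tt]
  · intro p hp a ha
    have : ∃ k ∈ ({0, 1, 2, 3, 6} : Finset (Fin 9)), g k = p := by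
      simp only [Set.mem_insert_iff, Set.mem_singleton_iff] at hp
      rcases hp with rfl | rfl | rfl | rfl | rfl
      · exact ⟨0, by simp, rfl⟩
      · exact ⟨1, by simp, rfl⟩
      · exact ⟨2, by simp, rfl⟩
      · exact ⟨3, by simp, rfl⟩
      · exact ⟨6, by simp, rfl⟩
    obtain ⟨k, hk, rfl⟩ := this
    obtain ⟨a', rfl⟩ := σ.surjective a
    rw [D9, hg, D9]
    exact U7 k hk a' (fun h => ha (by rw [h]))

theorem conf (h1 : T_GADM.{u}) (h2 : T_GADA.{u}) (h3 : T_MARK.{u}) (h4 : T_GP8.{u})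
    (h5 : T_NORM.{u}) : T_CONF.{u} := by
  classical
  intro F _ _ n hn x y hxy hnd
  have hnd' := hnd
  simp only [List.nodup_cons, List.mem_cons, List.not_mem_nil, not_or, or_false] at hnd'
  obtain ⟨⟨a1, a2, a3, a4, a5, a6, a7⟩, ⟨b2, b3, b4, b5, b6, b7⟩, -⟩ := hnd'
  have ne' : ∀ {p q : F}, ¬ p = q → q ≠ p := fun h h' => h h'.symm
  have hi : e00 n x y 1 = e00 n x y 0 + e00 n x y 2 := by
    funext j; fin_cases j <;> simp [e00, uu, tt]
  have hx1 : e00 n x y 3 = e00 n x y 0 + x • e00 n x y 2 := by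
    funext j; fin_cases j <;> simp [e00, uu, tt]
  have hx2 : e00 n x y 4 = e00 n x y 0 + (x * x) • e00 n x y 2 := by
    funext j; fin_cases j <;> simp [e00, uu, tt, pow_two]
  have hx2' : e00 n x y 4 = e00 n x y 0 + (x ^ 2) • e00 n x y 2 := by
    funext j; fin_cases j <;> simp [e00, uu, tt]
  have hxn : e00 n x y 5 = e00 n x y 0 + (x ^ n) • e00 n x y 2 := by
    funext j; fin_cases j <;> simp [e00, uu, tt]
  have hy1 : e00 n x y 6 = e00 n x y 0 + y • e00 n x y 2 := by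
    funext j; fin_cases j <;> simp [e00, uu, tt]
  have hy2 : e00 n x y 7 = e00 n x y 0 + (y * y) • e00 n x y 2 := by
    funext j; fin_cases j <;> simp [e00, uu, tt, pow_two]
  have hy2' : e00 n x y 7 = e00 n x y 0 + (y ^ 2) • e00 n x y 2 := by
    funext j; fin_cases j <;> simp [e00, uu, tt]
  have hyn : e00 n x y 8 = e00 n x y 0 + (y ^ n) • e00 n x y 2 := by
    funext j; fin_cases j <;> simp [e00, uu, tt]
  have S0 : St (e00 n x y) (e00 n x y) id :=
    ⟨Function.injective_id, fun _ => rfl, pl_e00 n x y hnd, ne_e00 n x y⟩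
  -- the five gadgets
  obtain ⟨τ1, S1, M1⟩ := stepM h1 S0 0 1 2 3 3 4 x x (ne' a2) (ne' b2) (ne' a2) (ne' b2)
    (by decide) hi hx1 hx1 hx2
  obtain ⟨τ2, S2, M2⟩ := stepM h1 S1 0 1 2 4 (if n = 3 then 3 else 4) 5 (x ^ 2)
    (if n = 3 then x else x ^ 2) (ne' a3) (ne' b3)
    (by split_ifs; exacts [ne' a2, ne' a3]) (by split_ifs; exacts [ne' b2, ne' b3])
    (by decide) hi hx2' (by split_ifs; exacts [hx1, hx2'])
    (by
      rw [hxn]
      congr 2
      rcases hn with rfl | rfl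
      · simp only [if_true]; ring
      · simp only [show ¬ (4 : ℕ) = 3 by decide, if_false]; ring)
  obtain ⟨τ3, S3, M3⟩ := stepM h1 S2 0 1 2 6 6 7 y y (ne' a5) (ne' b5) (ne' a5) (ne' b5)
    (by decide) hi hy1 hy1 hy2
  obtain ⟨τ4, S4, M4⟩ := stepM h1 S3 0 1 2 7 (if n = 3 then 6 else 7) 8 (y ^ 2)
    (if n = 3 then y else y ^ 2) (ne' a6) (ne' b6)
    (by split_ifs; exacts [ne' a5, ne' a6]) (by split_ifs; exacts [ne' b5, ne' b6])
    (by decide) hi hy2' (by split_ifs; exacts [hy1, hy2'])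
    (by
      rw [hyn]
      congr 2
      rcases hn with rfl | rfl
      · simp only [if_true]; ring
      · simp only [show ¬ (4 : ℕ) = 3 by decide, if_false]; ring)
  obtain ⟨τ5, S5, A5⟩ := stepA h2 S4 0 1 2 5 8 (x ^ n) (y ^ n) (ne' a4) (ne' a7) hxy
    (by decide) hi hxn hyn
  -- all the gadgets in the configuration after five steps
  have G1 := mono_inlM τ5 (mono_inlM τ4 (mono_inlM τ3 (mono_inlM τ2 M1)))
  have G2 := mono_inlM τ5 (mono_inlM τ4 (mono_inlM τ3 M2))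
  have G3 := mono_inlM τ5 (mono_inlM τ4 M3)
  have G4 := mono_inlM τ5 M4
  clear M1 M2 M3 M4
  exact finish h3 h4 h5 n x y _ _ S5 G1 G2 G3 G4 A5

end Pool.Agent.H28.FS
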