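import Pool.Agent.H28.FS.Gen
import Pool.Agent.H56.FS.Scale
import Pool.Agent.H56.FS.Set

/-!
# The structure theorem for logarithmic and for ordinary averages (MP_c59857_nt)
-/

set_option autoImplicit false

open MeasureTheory ProbabilityTheory Filter Topology Finset

namespace Pool.Agent.H28.FS

open Pool.Agent.H89.MT (I1 X pt z1 IsMult)
open Pool.Agent.H36.RP (S past remote remote_le past_le comp ae_comp meas_y abs_y Trit)
open Pool.Agent.H24.WT (QGW qgw_mp)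
open Pool.Agent.H92.WN (T_GLR)
open Pool.Agent.H93.ES (T_QSU)
open Pool.Agent.H28.MG (P V V_meas V_mem Tri qg_of set_all aINV spec_all finU_of)

/-- **The structure theorem**, for logarithmic averages (A) and for ordinary averages at a random
scale (B) -/
theorem main (hG : T_GLR) (hQ : T_QSU) (q : ℕ) [NeZero q] : ∃ c : ℝ, 0 < c ∧ ∀ u : ℕ → I1,
    Tri u → (∀ m n : ℕ, m.Coprime n → (u (m * n) : ℝ) = u m * u n) →
    (∀ (κ : Measure X) [IsProbabilityMeasure κ], QGW u κ →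
      ∃ v w : X → ℝ, Measurable v ∧ Measurable w ∧ (∀ x, 0 ≤ v x ∧ v x ≤ w x ∧ w x ≤ 1) ∧
        Struct κ v w ∧
        ((∃ χ : DirichletCharacter ℂ q, ∀ p : ℕ, p.Prime → ((u p : ℝ) : ℂ) = -χ p) →
          c ≤ ∫ x, w x ∂κ)) ∧
    (∀ (Ω : Type) [MeasurableSpace Ω] (PP : Measure Ω) [IsProbabilityMeasure PP]
      (K : Kernel Ω X) [IsMarkovKernel K], Pool.Agent.H56.FS.RS u PP K →
      ∃ v w : X → ℝ, Measurable v ∧ Measurable w ∧ (∀ x, 0 ≤ v x ∧ v x ≤ w x ∧ w x ≤ 1) ∧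
        (∀ᵐ ω ∂PP, Struct (K ω) v w) ∧
        ((∃ χ : DirichletCharacter ℂ q, ∀ p : ℕ, p.Prime → ((u p : ℝ) : ℂ) = -χ p) →
          c ≤ ∫ ω, ∫ x, w x ∂K ω ∂PP)) := by
  obtain ⟨c, hc, hfar⟩ := Pool.Agent.H24.WN.far_mult q
  have hthree : ∀ u : ℕ → I1, (∀ m n : ℕ, m.Coprime n → (u (m * n) : ℝ) = u m * u n) →
      ∀ (κ : Measure X) [IsProbabilityMeasure κ], QGW u κ →
      (∃ χ : DirichletCharacter ℂ q, ∀ p : ℕ, p.Prime → ((u p : ℝ) : ℂ) = -χ p) →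
        c ≤ ∫ x, Pool.Agent.H24.WN.W κ x ∂κ := by
    intro u hm κ _ hκ hχ
    obtain ⟨G, hGm, hG1, hGc, hGF⟩ := hfar u hm hχ κ hκ
    exact (Pool.Agent.H24.WN.white_of hκ (finU_of hG hQ hm
      (Pool.Agent.H24.WN.summ_chi u hχ))).2 c G hGm hG1 hGc hGF
  refine ⟨c, hc, fun u hT hm => ⟨fun κ _ hκ => ?_, fun Ω _ PP _ K _ hK => ?_⟩⟩
  · obtain ⟨hS, hTr⟩ := Pool.Agent.H2.RP.pf_MP u hT κ (qg_of hκ)
    exact ⟨V κ, Pool.Agent.H24.WN.W κ, V_meas κ, Pool.Agent.H24.WN.W_meas κ, V_mem κ,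
      struct_of κ κ hS hTr (set_all hT hm hκ) (Eventually.of_forall fun x => rfl)
        (EventuallyEq.refl _ _) (spec_all hG hQ hm hκ), hthree u hm κ hκ⟩
  · have hκ : QGW u (K ∘ₘ PP) := ⟨inferInstance, Pool.Agent.H56.FS.K_mean hK⟩
    obtain ⟨hS, hTr⟩ := Pool.Agent.H2.RP.pf_MP u hT (K ∘ₘ PP) (qg_of hκ)
    have hset := set_all hT hm hκ
    have hinv := aINV (K ∘ₘ PP) hS
    have hKS := Pool.Agent.H56.FS.K_inv hK
    obtain ⟨h1, h2⟩ := Pool.Agent.H56.FS.K_set PP K hS hKS hTr hset hinv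
    have h3 := Pool.Agent.H56.FS.comp_same PP K hS hKS
    have h4 := Pool.Agent.H56.FS.ae_K PP K (spec_all hG hQ hm hκ)
    have h5 := Pool.Agent.H56.FS.ae_K PP K hTr
    have h6 := h2 0 (fun a : I1 => (a : ℝ)) measurable_subtype_coe fun a => abs_le.2 a.2
    refine ⟨V (K ∘ₘ PP), Pool.Agent.H24.WN.W (K ∘ₘ PP), V_meas _,
      Pool.Agent.H24.WN.W_meas _, V_mem _, ?_, fun hχ => ?_⟩
    · filter_upwards [hKS, h5, h1, h3, h6, h4] with ω g1 g2 g3 g4 g5 g6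
      exact struct_of (K ∘ₘ PP) (K ω) g1 g2 g3 g4 g5.symm g6
    · have h7 := hthree u hm (K ∘ₘ PP) hκ hχ
      rwa [Pool.Agent.H56.FS.int_comp PP K] at h7
      exact Integrable.of_bound (Pool.Agent.H24.WN.W_meas _).aestronglyMeasurable 1
        (Eventually.of_forall fun x => by
          rw [Real.norm_eq_abs, abs_of_nonneg (Pool.Agent.H24.WN.W_mem _ x).1]
          exact (Pool.Agent.H24.WN.W_mem _ x).2)

end Pool.Agent.H28.FS
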