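import Pool.Agent.H28.MG.Fin

/-!
# The structure of a measure whose components are those of a logarithmic Furstenberg system
(MP_c59857_nt)
-/

set_option autoImplicit false

open MeasureTheory ProbabilityTheory Filter Topology Finset

namespace Pool.Agent.H28.FS

open Pool.Agent.H89.MT (I1 X pt z1 IsMult)
open Pool.Agent.H36.RP (S past remote remote_le past_le comp ae_comp meas_y abs_y Trit)
open Pool.Agent.H95.RP (bias)
open Pool.Agent.H28.MG (P Dec D V)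

/-- parts (i) and (ii) of the structure theorem for the measure `ν`, with the densities `v`, `w` -/
def Struct (ν : Measure X) [IsProbabilityMeasure ν] (v w : X → ℝ) : Prop :=
  iCondIndepFun remote remote_le (fun (n : ℤ) (x : X) => x n) ν ∧
  (∀ A : Set X, MeasurableSet[remote] A → ∀ m : ℤ,
    ∃ B : Set X, MeasurableSet[bias ν m] B ∧ A =ᵐ[ν] B) ∧
  (∀ A : Set X, MeasurableSet A → S ⁻¹' A = A →
    ∃ B : Set X, MeasurableSet[remote] B ∧ A =ᵐ[ν] B) ∧
  ((∀ (s : Finset ℤ) (n : ℤ) (e : ℤ → ℕ), n ∉ s →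
    ∫ x, (x n : ℝ) * ∏ k ∈ s, (x k : ℝ) ^ e k ∂ν = 0) ↔ P ν 0 =ᵐ[ν] 0) ∧
  ∀ᵐ x ∂ν, Dec ν (comp ν x) (v x) (w x)

/-- `W` depends on the component only -/
theorem W_congr {κ ν : Measure X} [IsProbabilityMeasure κ] [IsProbabilityMeasure ν] {x : X}
    (h : comp ν x = comp κ x) : Pool.Agent.H24.WN.W ν x = Pool.Agent.H24.WN.W κ x := by
  have h' : Pool.Agent.H24.EG.comp ν x = Pool.Agent.H24.EG.comp κ x := h
  unfold Pool.Agent.H24.WN.W Pool.Agent.H24.WN.rc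
  rw [h']

theorem struct_of (κ ν : Measure X) [IsProbabilityMeasure κ] [IsProbabilityMeasure ν]
    (hS : MeasurePreserving S ν ν) (hTr : Trit ν)
    (hset : ∀ (m : ℤ) (ψ : I1 → ℝ), Measurable ψ → (∀ a, |ψ a| ≤ 1) →
      ν[fun x => ψ (x m) | past (m - 1)] =ᵐ[ν] ν[fun x => ψ (x m) | remote])
    (hcomp : ∀ᵐ x ∂ν, comp ν x = comp κ x) (hP : P ν 0 =ᵐ[ν] P κ 0)
    (hspec : ∀ᵐ x ∂ν, Pool.Agent.H24.WN.Spec (comp κ x) (Pool.Agent.H24.WN.W κ x)) :
    Struct ν (V κ) (Pool.Agent.H24.WN.W κ) := by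
  have hind : iCondIndepFun remote remote_le (fun (n : ℤ) (x : X) => x n) ν :=
    Pool.Agent.H17.RP.pf_IND ν hset
  have hinv : ∀ A : Set X, MeasurableSet A → S ⁻¹' A = A →
      ν[A.indicator (fun _ => (1 : ℝ)) | remote] =ᵐ[ν] A.indicator (fun _ => (1 : ℝ)) :=
    Pool.Agent.H28.MG.aINV ν hS
  obtain ⟨hB, hN⟩ := Pool.Agent.H28.MG.bri ν hTr hset hinv
  refine ⟨hind, fun A hA m =>
    Pool.Agent.H95.RP.gen_sets Pool.Agent.H36.RP.pf_APX ν hTr hind m A hA,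
    Pool.Agent.H28.MG.inv_sets ν hS, Pool.Agent.H85.RP.pf_CHO ν hS hTr hset hind, ?_⟩
  have hspec' : ∀ᵐ x ∂ν, Pool.Agent.H24.WN.Spec (comp ν x) (Pool.Agent.H24.WN.W ν x) := by
    filter_upwards [hspec, hcomp] with x h1 h2
    rw [W_congr h2, h2]
    exact h1
  filter_upwards [Pool.Agent.H28.MG.dec ν hS hspec' hB hN, hcomp, ae_comp ν hP] with x h1 h2 h3
  have hW := W_congr (κ := κ) (ν := ν) h2
  have hD : D ν x = D κ x := by
    have h4 : ∫ y, P ν 0 y ^ 2 ∂comp ν x = ∫ y, P κ 0 y ^ 2 ∂comp κ x := by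
      rw [← h2]
      refine integral_congr_ae ?_
      filter_upwards [h3] with y hy
      rw [hy]
    unfold Pool.Agent.H28.MG.D
    rw [h4, h2]
  have hV : V ν x = V κ x := by
    unfold Pool.Agent.H28.MG.V
    rw [hW, hD]
  rw [← hV, ← hW]
  exact h1

end Pool.Agent.H28.FS
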