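import Mathlib
import Pool.Agent.H67.FS.Targets

set_option autoImplicit false

/-!
# HYP: a configuration gives a `CfgCx` (MP_6f7589_ag)
-/

namespace Pool.Agent.H28.FS

open Pool.Agent.H67.FS Matrix

universe u

section B1

variable {F : Type u} [Field F]

/-- coordinates modulo the vector `w` with `w 0 = 1` -/
def cmap (w : Fin 4 → F) : (Fin 4 → F) →ₗ[F] (Fin 3 → F) where
  toFun v j := v j.succ - v 0 * w j.succ
  map_add' v v' := by
    funext j
    simp only [Pi.add_apply]
    ring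
  map_smul' t v := by
    funext j
    simp only [Pi.smul_apply, smul_eq_mul, RingHom.id_apply]
    ring

lemma ker_cmap (w : Fin 4 → F) (hw : w 0 = 1) : LinearMap.ker (cmap w) = Submodule.span F {w} := by
  ext v
  rw [LinearMap.mem_ker, Submodule.mem_span_singleton]
  constructor
  · intro h
    refine ⟨v 0, ?_⟩
    funext j
    refine Fin.cases ?_ (fun j => ?_) j
    · simp [hw]
    · have := congrFun h j
      simp only [cmap, LinearMap.coe_mk, AddHom.coe_mk, Pi.zero_apply] at this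
      simp only [Pi.smul_apply, smul_eq_mul]
      linear_combination -this
  · rintro ⟨t, rfl⟩
    funext j
    simp [cmap, hw]

lemma surj_cmap (w : Fin 4 → F) : Function.Surjective (cmap w) := by
  intro u
  refine ⟨Fin.cons 0 u, ?_⟩
  funext j
  simp [cmap]

variable {ι : Type} (e : ι → Fin 4 → F) (h : ∀ a, e a 0 = 1)

include h in
lemma ker_cmap' (a : ι) : LinearMap.ker (cmap (e a)) = E1 e a := ker_cmap (e a) (h a)

/-- the coordinates on the quotient -/
noncomputable def qeq (a : ι) : ((Fin 4 → F) ⧸ E1 e a) ≃ₗ[F] (Fin 3 → F) :=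
  (Submodule.quotEquivOfEq (E1 e a) (LinearMap.ker (cmap (e a))) (ker_cmap' e h a).symm).trans
    ((cmap (e a)).quotKerEquivOfSurjective (surj_cmap (e a)))

lemma qeq_mk (a : ι) (v : Fin 4 → F) :
    qeq e h a (Submodule.Quotient.mk v) = cmap (e a) v := by
  simp [qeq, Submodule.quotEquivOfEq_mk]

noncomputable def qb (a : ι) : Module.Basis (Fin 3) F ((Fin 4 → F) ⧸ E1 e a) :=
  Module.Basis.ofEquivFun (qeq e h a)

lemma qb_apply (a : ι) (j : Fin 3) :
    qb e h a j = Submodule.Quotient.mk (Pi.single j.succ 1) := by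
  have : (Submodule.Quotient.mk (Pi.single j.succ 1) :
      (Fin 4 → F) ⧸ E1 e a) = (qeq e h a).symm (Pi.single j 1) := by
    rw [LinearEquiv.eq_symm_apply, qeq_mk]
    funext k
    simp [cmap, Pi.single_apply]
  rw [this, qb, Module.Basis.coe_ofEquivFun]

variable [Fintype ι] [LinearOrder ι]

/-- the basis of `C1` -/
noncomputable def bas1 : Module.Basis (ι × Fin 3) F (C1 e) :=
  (Pi.basis (fun a => qb e h a)).reindex (Equiv.sigmaEquivProd ι (Fin 3))

lemma bas1_apply (a : ι) (j : Fin 3) :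
    bas1 e h (a, j) = M0 e a (Pi.single j.succ 1) := by
  rw [bas1, Module.Basis.reindex_apply]
  have : (Equiv.sigmaEquivProd ι (Fin 3)).symm (a, j) = ⟨a, j⟩ := rfl
  rw [this, Pi.basis_apply, qb_apply]
  funext c
  by_cases hc : a = c
  · subst hc
    simp [M0]
  · rw [Pi.single_eq_of_ne (Ne.symm hc)]
    simp [M0, hc]

end B1

section Transport

set_option linter.unusedSectionVars false

variable {κ : Type u} [Field κ] {n n' : Type} [Fintype n] [Fintype n'] [DecidableEq n]
  [DecidableEq n'] {V W : Type u} [AddCommGroup V] [Module κ V] [AddCommGroup W] [Module κ W]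

lemma mulVec_eq (b : Module.Basis n κ V) (b' : Module.Basis n' κ W) (f : V →ₗ[κ] W) (v : V) :
    LinearMap.toMatrix b b' f *ᵥ (b.equivFun v) = b'.equivFun (f v) := by
  have := LinearMap.toMatrix_mulVec_repr b b' f v
  simpa [Module.Basis.equivFun_apply] using this

lemma sum_toMatrix (b : Module.Basis n κ V) (b' : Module.Basis n' κ W) {ι : Type} [Fintype ι]
    (t : ι → κ) (M : ι → V →ₗ[κ] W) :
    ∑ i, t i • LinearMap.toMatrix b b' (M i) = LinearMap.toMatrix b b' (∑ i, t i • M i) := by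
  simp [map_sum, map_smul]

lemma rank_toMatrix (b : Module.Basis n κ V) (b' : Module.Basis n' κ W) (f : V →ₗ[κ] W) :
    (LinearMap.toMatrix b b' f).rank = Module.finrank κ (LinearMap.range f) := by
  rw [Matrix.rank_eq_finrank_range_toLin _ b' b, Matrix.toLin_toMatrix]

lemma tf_transport {K : Type u} [Field K] [Algebra K κ] {ι : Type} [Fintype ι]
    (b : Module.Basis n κ V) (b' : Module.Basis n' κ W) (M : ι → V →ₗ[κ] W)
    (h : ∀ c : ι → ι → W,
      (∀ x : ι → Kˣ, ∃ u, ∑ i, algebraMap K κ (x i) • M i u =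
        ∑ i, ∑ j, algebraMap K κ (x i * x j) • c i j) →
      ∃ y : ι → V, (∀ i, M i (y i) = c i i) ∧
        ∀ i j, i ≠ j → M i (y j) + M j (y i) = c i j + c j i)
    (c : ι → ι → n' → κ)
    (hc : ∀ x : ι → Kˣ, ∃ u : n → κ,
      (∑ i, algebraMap K κ (x i) • LinearMap.toMatrix b b' (M i)) *ᵥ u =
      ∑ i, ∑ j, algebraMap K κ (x i * x j) • c i j) :
    ∃ y : ι → n → κ, (∀ i, LinearMap.toMatrix b b' (M i) *ᵥ y i = c i i) ∧
      ∀ i j, i ≠ j → LinearMap.toMatrix b b' (M i) *ᵥ y j + LinearMap.toMatrix b b' (M j) *ᵥ y i =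
        c i j + c j i := by
  obtain ⟨y, hy1, hy2⟩ := h (fun i j => b'.equivFun.symm (c i j)) (by
    intro x
    obtain ⟨u, hu⟩ := hc x
    refine ⟨b.equivFun.symm u, ?_⟩
    apply b'.equivFun.injective
    rw [sum_toMatrix] at hu
    have h1 := mulVec_eq b b' (∑ i, algebraMap K κ (x i) • M i) (b.equivFun.symm u)
    rw [LinearEquiv.apply_symm_apply, hu] at h1
    rw [LinearMap.sum_apply] at h1
    simp only [LinearMap.smul_apply] at h1
    rw [← h1, map_sum]
    refine Finset.sum_congr rfl fun i _ => ?_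
    rw [map_sum]
    refine Finset.sum_congr rfl fun j _ => ?_
    rw [map_smul, LinearEquiv.apply_symm_apply])
  refine ⟨fun i => b.equivFun (y i), ?_, ?_⟩
  · intro i
    rw [mulVec_eq, hy1, LinearEquiv.apply_symm_apply]
  · intro i j hij
    rw [mulVec_eq, mulVec_eq, ← map_add, hy2 i j hij, map_add, LinearEquiv.apply_symm_apply,
      LinearEquiv.apply_symm_apply]

end Transport

section Comp

variable {F : Type u} [Field F] {ι : Type} [LinearOrder ι] (e : ι → Fin 4 → F)

lemma M0_apply (c d : ι) (v : Fin 4 → F) :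
    M0 e c v d = if c = d then (Submodule.Quotient.mk v : (Fin 4 → F) ⧸ E1 e d) else 0 := by
  unfold M0
  split_ifs with h
  · simp [h]
  · simp [h]

lemma r1r_M0 (p : Prs ι) (c : ι) (v : Fin 4 → F) :
    r1r e p (M0 e c v) = if c = p.1.2 then Submodule.Quotient.mk v else 0 := by
  show Submodule.factor (E1_le_right e p.1.1 p.1.2) (M0 e c v p.1.2) = _
  rw [M0_apply]
  split_ifs with h
  · rfl
  · exact map_zero _

lemma r1l_M0 (p : Prs ι) (c : ι) (v : Fin 4 → F) :
    r1l e p (M0 e c v) = if c = p.1.1 then Submodule.Quotient.mk v else 0 := by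
  show Submodule.factor (E1_le_left e p.1.1 p.1.2) (M0 e c v p.1.1) = _
  rw [M0_apply]
  split_ifs with h
  · rfl
  · exact map_zero _

lemma M1_M0 (a c : ι) (v : Fin 4 → F) (p : Prs ι) :
    M1 e a (M0 e c v) p =
      (if a = p.1.1 ∧ c = p.1.2 then Submodule.Quotient.mk v else 0) -
      (if a = p.1.2 ∧ c = p.1.1 then Submodule.Quotient.mk v else 0) := by
  have : M1 e a (M0 e c v) p = ((if a = p.1.1 then r1r e p else 0) -
    (if a = p.1.2 then r1l e p else 0)) (M0 e c v) := rfl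
  rw [this, LinearMap.sub_apply]
  congr 1
  · by_cases h : a = p.1.1
    · simp [h, r1r_M0]
    · simp [h]
  · by_cases h : a = p.1.2
    · simp [h, r1l_M0]
    · simp [h]

lemma M2_M1_M0 (t : Trs ι) (v : Fin 4 → F) (t' : Trs ι) :
    M2 e t.1.1 (M1 e t.1.2.1 (M0 e t.1.2.2 v)) t' =
      if t = t' then Submodule.Quotient.mk v else 0 := by
  obtain ⟨⟨a, b, c⟩, hab, hbc⟩ := t
  obtain ⟨⟨a', b', c'⟩, hab', hbc'⟩ := t'
  simp only at hab hbc hab' hbc'
  set w := M1 e b (M0 e c v) with hw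
  have hwp : ∀ p : Prs ι, w p = if b = p.1.1 ∧ c = p.1.2 then Submodule.Quotient.mk v else 0 := by
    intro p
    rw [hw, M1_M0]
    have : ¬ (b = p.1.2 ∧ c = p.1.1) := by
      rintro ⟨h1, h2⟩
      have := p.2
      rw [← h1, ← h2] at this
      exact absurd this (not_lt.2 hbc.le)
    rw [if_neg this, sub_zero]
  have hbc1 : r2bc e ⟨(a', b', c'), hab', hbc'⟩ w =
      if b = b' ∧ c = c' then Submodule.Quotient.mk v else 0 := by
    show Submodule.factor (E2_le_bc e a' b' c') (w ⟨(b', c'), hbc'⟩) = _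
    rw [hwp]
    simp only
    split_ifs with h
    · rfl
    · exact map_zero _
  have hac1 : r2ac e ⟨(a', b', c'), hab', hbc'⟩ w =
      if b = a' ∧ c = c' then Submodule.Quotient.mk v else 0 := by
    show Submodule.factor (E2_le_ac e a' b' c') (w ⟨(a', c'), hab'.trans hbc'⟩) = _
    rw [hwp]
    simp only
    split_ifs with h
    · rfl
    · exact map_zero _
  have hab1 : r2ab e ⟨(a', b', c'), hab', hbc'⟩ w =
      if b = a' ∧ c = b' then Submodule.Quotient.mk v else 0 := by
    show Submodule.factor (E2_le_ab e a' b' c') (w ⟨(a', b'), hab'⟩) = _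
    rw [hwp]
    simp only
    split_ifs with h
    · rfl
    · exact map_zero _
  have : M2 e a w ⟨(a', b', c'), hab', hbc'⟩ =
    (if a = a' then r2bc e ⟨(a', b', c'), hab', hbc'⟩ w else 0) -
    (if a = b' then r2ac e ⟨(a', b', c'), hab', hbc'⟩ w else 0) +
    (if a = c' then r2ab e ⟨(a', b', c'), hab', hbc'⟩ w else 0) := by
    show ((if a = a' then r2bc e ⟨(a', b', c'), hab', hbc'⟩ else 0) -
      (if a = b' then r2ac e ⟨(a', b', c'), hab', hbc'⟩ else 0) +
      (if a = c' then r2ab e ⟨(a', b', c'), hab', hbc'⟩ else 0) :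
        C2 e →ₗ[F] (Fin 4 → F) ⧸ E3 e a' b' c') w = _
    rw [LinearMap.add_apply, LinearMap.sub_apply]
    congr 1
    · congr 1
      · split_ifs <;> rfl
      · split_ifs <;> rfl
    · split_ifs <;> rfl
  rw [this, hbc1, hac1, hab1]
  have h2 : ¬ (a = b' ∧ (b = a' ∧ c = c')) := by
    rintro ⟨g1, g2, g3⟩
    rw [g1, g2] at hab
    exact absurd hab (not_lt.2 hab'.le)
  have h3 : ¬ (a = c' ∧ (b = a' ∧ c = b')) := by
    rintro ⟨g1, g2, g3⟩
    rw [g1, g2] at hab
    exact absurd hab (not_lt.2 (hab'.trans hbc').le)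
  rw [← ite_and, ← ite_and, ← ite_and, if_neg h2, if_neg h3, sub_zero, add_zero]
  have h4 : ((⟨(a, b, c), hab, hbc⟩ : Trs ι) = ⟨(a', b', c'), hab', hbc'⟩) ↔
      (a = a' ∧ b = b' ∧ c = c') := by
    simp [Prod.ext_iff]
  by_cases h : a = a' ∧ b = b' ∧ c = c'
  · rw [if_pos h, if_pos (h4.2 h)]
  · rw [if_neg h, if_neg (fun h' => h (h4.1 h'))]

end Comp

section Final

variable {κ : Type u} [Field κ] {ι : Type} [Fintype ι] [LinearOrder ι] (e : ι → Fin 4 → κ)

/-- independence at pairs -/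
lemma li_pairs (h0 : ∀ a, e a 0 = 1) (h1 : Function.Injective (fun a => e a 1)) (a : ι) :
    LinearIndependent κ (fun q : {c : ι // c ≠ a} × Fin 2 =>
      M1 e a (M0 e q.1 (Pi.single q.2.succ.succ 1))) := by
  classical
  rw [Fintype.linearIndependent_iff]
  intro g hg
  rintro ⟨⟨c, hc⟩, j⟩
  -- the pair
  have key : ∀ (p : Prs ι), (p.1.1 = a ∧ p.1.2 = c) ∨ (p.1.1 = c ∧ p.1.2 = a) →
      (Submodule.Quotient.mk (∑ k : Fin 2, g (⟨c, hc⟩, k) • (Pi.single k.succ.succ 1 :
        Fin 4 → κ)) : (Fin 4 → κ) ⧸ E2 e p.1.1 p.1.2) = 0 := by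
    intro p hp
    have hgp := congrFun hg p
    rw [Finset.sum_apply, Fintype.sum_prod_type] at hgp
    rw [Finset.sum_eq_single (⟨c, hc⟩ : {c : ι // c ≠ a})] at hgp
    · have hs : ∃ s : κ, s ≠ 0 ∧ ∀ k : Fin 2,
          M1 e a (M0 e c (Pi.single k.succ.succ 1)) p =
            s • (Submodule.Quotient.mk (Pi.single k.succ.succ 1) :
              (Fin 4 → κ) ⧸ E2 e p.1.1 p.1.2) := by
        rcases hp with ⟨hp1, hp2⟩ | ⟨hp1, hp2⟩
        · refine ⟨1, one_ne_zero, fun k => ?_⟩
          rw [M1_M0, if_pos ⟨hp1.symm, hp2.symm⟩, if_neg, sub_zero, one_smul]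
          rintro ⟨g1, -⟩
          exact hc (by rw [g1, hp2])
        · refine ⟨-1, by simp, fun k => ?_⟩
          rw [M1_M0, if_neg, if_pos ⟨hp2.symm, hp1.symm⟩, zero_sub, neg_one_smul]
          rintro ⟨g1, -⟩
          exact hc (by rw [g1, hp1])
      obtain ⟨s, hs0, hs⟩ := hs
      have : s • (Submodule.Quotient.mk (∑ k : Fin 2, g (⟨c, hc⟩, k) • (Pi.single k.succ.succ 1 :
        Fin 4 → κ)) : (Fin 4 → κ) ⧸ E2 e p.1.1 p.1.2) = 0 := by
        rw [← Submodule.mkQ_apply, map_sum, Finset.smul_sum]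
        refine Eq.trans ?_ hgp
        refine Finset.sum_congr rfl fun k _ => ?_
        rw [map_smul, Pi.smul_apply, hs, Submodule.mkQ_apply, smul_comm]
      exact (smul_eq_zero.1 this).resolve_left hs0
    · rintro ⟨c', hc'⟩ - hcc
      have hcc' : c' ≠ c := fun h => hcc (Subtype.ext h)
      refine Finset.sum_eq_zero fun k _ => ?_
      rw [Pi.smul_apply, M1_M0, if_neg, if_neg, sub_zero, smul_zero]
      · rintro ⟨g1, g2⟩
        rcases hp with ⟨hp1, hp2⟩ | ⟨hp1, hp2⟩
        · exact hc' (g2.trans hp1)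
        · exact hcc' (g2.trans hp1)
      · rintro ⟨g1, g2⟩
        rcases hp with ⟨hp1, hp2⟩ | ⟨hp1, hp2⟩
        · exact hcc' (g2.trans hp2)
        · exact hc' (g2.trans hp2)
    · intro h
      exact absurd (Finset.mem_univ _) h
  -- extraction of the coefficients
  have fin : ∀ (p q : ι), p ≠ q → (Submodule.Quotient.mk (∑ k : Fin 2, g (⟨c, hc⟩, k) •
      (Pi.single k.succ.succ 1 : Fin 4 → κ)) : (Fin 4 → κ) ⧸ E2 e p q) = 0 →
      g (⟨c, hc⟩, j) = 0 := by
    intro p q hpq hz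
    have hr : (∑ k : Fin 2, g (⟨c, hc⟩, k) • (Pi.single k.succ.succ 1 : Fin 4 → κ)) =
        ![0, 0, g (⟨c, hc⟩, 0), g (⟨c, hc⟩, 1)] := by
      funext m
      rw [Fin.sum_univ_two]
      fin_cases m <;> simp
    rw [hr, Submodule.Quotient.mk_eq_zero] at hz
    obtain ⟨s, t, hst⟩ := Submodule.mem_span_pair.1 hz
    have c0 : s * e p 0 + t * e q 0 = 0 := congrFun hst 0
    have c1 : s * e p 1 + t * e q 1 = 0 := congrFun hst 1
    have c2 : s * e p 2 + t * e q 2 = g (⟨c, hc⟩, 0) := congrFun hst 2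
    have c3 : s * e p 3 + t * e q 3 = g (⟨c, hc⟩, 1) := congrFun hst 3
    rw [h0, h0, mul_one, mul_one] at c0
    have hne : e p 1 - e q 1 ≠ 0 := sub_ne_zero.2 (fun h => hpq (h1 h))
    have hs : s = 0 := by
      have : s * (e p 1 - e q 1) = 0 := by linear_combination c1 - e q 1 * c0
      exact (mul_eq_zero.1 this).resolve_right hne
    have ht : t = 0 := by linear_combination c0 - hs
    rw [hs, ht] at c2 c3
    simp at c2 c3
    fin_cases j
    · exact c2.symm
    · exact c3.symm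
  rcases lt_or_gt_of_ne hc with h | h
  · exact fin c a hc (key ⟨(c, a), h⟩ (Or.inr ⟨rfl, rfl⟩))
  · exact fin a c (Ne.symm hc) (key ⟨(a, c), h⟩ (Or.inl ⟨rfl, rfl⟩))

/-- generation of the last space -/
lemma span_triples (u : C3 e) : u ∈ Submodule.span κ (Set.range fun q : Trs ι × Fin 4 =>
    M2 e q.1.1.1 (M1 e q.1.1.2.1 (M0 e q.1.1.2.2 (Pi.single q.2 1)))) := by
  classical
  have hu : u = ∑ t : Trs ι, ∑ j : Fin 4, (Quotient.out (u t) : Fin 4 → κ) j •
      M2 e t.1.1 (M1 e t.1.2.1 (M0 e t.1.2.2 (Pi.single j 1))) := by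
    funext t'
    rw [Finset.sum_apply, Finset.sum_eq_single t']
    · rw [Finset.sum_apply]
      simp only [Pi.smul_apply, M2_M1_M0, if_true]
      have h1 : (Submodule.Quotient.mk (Quotient.out (u t') : Fin 4 → κ) :
          (Fin 4 → κ) ⧸ E3 e t'.1.1 t'.1.2.1 t'.1.2.2) = u t' := Quotient.out_eq _
      conv_lhs => rw [← h1]
      have h2 : (Quotient.out (u t') : Fin 4 → κ) =
          ∑ j : Fin 4, (Quotient.out (u t') : Fin 4 → κ) j • (Pi.single j 1 : Fin 4 → κ) := by
        funext k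
        simp [Finset.sum_apply, Pi.single_apply]
      conv_lhs => rw [h2]
      rw [← Submodule.mkQ_apply, map_sum]
      simp only [map_smul, Submodule.mkQ_apply]
    · intro t _ ht
      rw [Finset.sum_apply]
      refine Finset.sum_eq_zero fun j _ => ?_
      rw [Pi.smul_apply, M2_M1_M0, if_neg ht, smul_zero]
    · intro h
      exact absurd (Finset.mem_univ _) h
  rw [hu]
  refine Submodule.sum_mem _ fun t _ => Submodule.sum_mem _ fun j _ =>
    Submodule.smul_mem _ _ (Submodule.subset_span ⟨(t, j), rfl⟩)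

end Final

theorem hyp (h1 : T_TF.{u}) (h2 : T_RK.{u}) (h3 : T_Z.{u}) : T_HYP.{u} := by
  intro K κ _ _ _ _ ι n2 n3 _ _ _ _ _ _ e hGP h0 hinj b2 b3
  have hne : ∀ a, e a ≠ 0 := by
    intro a h
    have := congrFun h 0
    rw [h0] at this
    exact one_ne_zero this
  have hPL : PL e := by
    intro a b hab
    rw [LinearIndependent.pair_iff]
    intro s t hst
    have c0 := congrFun hst 0
    have c1 := congrFun hst 1
    simp [h0] at c0 c1
    have hne : e a 1 - e b 1 ≠ 0 := sub_ne_zero.2 (fun h => hab (hinj h))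
    have hs : s = 0 := by
      have : s * (e a 1 - e b 1) = 0 := by linear_combination c1 - e b 1 * c0
      exact (mul_eq_zero.1 this).resolve_right hne
    exact ⟨hs, by linear_combination c0 - hs⟩
  obtain ⟨z1a, z1b, z2a, z2b, -, -⟩ := h3 κ ι e
  obtain ⟨tf1, tf2⟩ := h1 K κ ι e hGP
  obtain ⟨rk1, -, -, -, rkd, -⟩ := h2 K κ ι e hGP hne hPL
  set b1 := bas1 e h0 with hb1
  have hmF : ∀ (i : ι) (v : Fin 4 → κ),
      LinearMap.toMatrix (Pi.basisFun κ (Fin 4)) b1 (M0 e i) *ᵥ v = b1.equivFun (M0 e i v) := by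
    intro i v
    have := mulVec_eq (Pi.basisFun κ (Fin 4)) b1 (M0 e i) v
    rwa [Pi.basisFun_equivFun, LinearEquiv.refl_apply] at this
  refine ⟨fun i => LinearMap.toMatrix b1 b2 (M1 e i),
    fun i => LinearMap.toMatrix (Pi.basisFun κ (Fin 4)) b1 (M0 e i), ?_⟩
  refine
    { z1a := ?_, z1b := ?_, z2a := ?_, z2b := ?_, tf1 := ?_, tf2 := ?_, r2 := ?_, b1 := ?_,
      b1c := ?_, b1e := ?_, b2 := ?_, b3 := ?_, d3 := ?_ }
  · intro i
    rw [← LinearMap.toMatrix_comp]
    have : M1 e i ∘ₗ M0 e i = 0 := LinearMap.ext fun v => z1a i v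
    rw [this, map_zero]
  · intro i j
    rw [← LinearMap.toMatrix_comp, ← LinearMap.toMatrix_comp, ← map_add]
    have : M1 e i ∘ₗ M0 e j + M1 e j ∘ₗ M0 e i = 0 := LinearMap.ext fun v => z1b i j v
    rw [this, map_zero]
  · intro i
    rw [← LinearMap.toMatrix_comp]
    have : M2 e i ∘ₗ M1 e i = 0 := LinearMap.ext fun v => z2a i v
    rw [this, map_zero]
  · intro i j
    rw [← LinearMap.toMatrix_comp, ← LinearMap.toMatrix_comp, ← map_add]
    have : M2 e i ∘ₗ M1 e j + M2 e j ∘ₗ M1 e i = 0 := LinearMap.ext fun v => z2b i j v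
    rw [this, map_zero]
  · exact tf_transport b1 b2 (M1 e) tf1
  · exact tf_transport b2 b3 (M2 e) tf2
  · intro x
    rw [sum_toMatrix, sum_toMatrix, rank_toMatrix, rank_toMatrix, rk1 x,
      LinearMap.finrank_range_add_finrank_ker, Module.finrank_eq_card_basis b2]
  · have : (fun q : ι × Fin 3 => LinearMap.toMatrix (Pi.basisFun κ (Fin 4)) b1 (M0 e q.1) *ᵥ
        Pi.single q.2.succ 1) = fun q => b1.equivFun (b1 q) := by
      funext q
      rw [hmF]
      congr 1
      rw [hb1, ← bas1_apply e h0 q.1 q.2]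
    rw [this]
    exact b1.linearIndependent.map' b1.equivFun.toLinearMap (LinearEquiv.ker _)
  · rw [Fintype.card_prod, Fintype.card_fin, mul_comm]
  · intro a
    rw [hmF]
    have : M0 e a (e a) = 0 := by
      funext d
      rw [M0_apply]
      split_ifs with h
      · subst h
        exact (Submodule.Quotient.mk_eq_zero _).2 (Submodule.mem_span_singleton_self _)
      · rfl
    rw [this, map_zero]
  · intro a
    have : (fun q : {c : ι // c ≠ a} × Fin 2 => LinearMap.toMatrix b1 b2 (M1 e a) *ᵥ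
        (LinearMap.toMatrix (Pi.basisFun κ (Fin 4)) b1 (M0 e q.1) *ᵥ
          Pi.single q.2.succ.succ 1)) = fun q => b2.equivFun
          (M1 e a (M0 e q.1 (Pi.single q.2.succ.succ 1))) := by
      funext q
      rw [hmF, mulVec_eq]
    rw [this]
    exact (li_pairs e h0 hinj a).map' b2.equivFun.toLinearMap (LinearEquiv.ker _)
  · have : (fun q : Trs ι × Fin 4 => LinearMap.toMatrix b2 b3 (M2 e q.1.1.1) *ᵥ
        (LinearMap.toMatrix b1 b2 (M1 e q.1.1.2.1) *ᵥ
        (LinearMap.toMatrix (Pi.basisFun κ (Fin 4)) b1 (M0 e q.1.1.2.2) *ᵥ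
          Pi.single q.2 1))) = b3.equivFun.toLinearMap ∘ fun q : Trs ι × Fin 4 =>
          (M2 e q.1.1.1 (M1 e q.1.1.2.1 (M0 e q.1.1.2.2 (Pi.single q.2 1)))) := by
      funext q
      rw [hmF, mulVec_eq, mulVec_eq]
      rfl
    rw [this, Set.range_comp, ← Submodule.map_span, eq_top_iff]
    intro w _
    exact ⟨b3.equivFun.symm w, span_triples e _, LinearEquiv.apply_symm_apply _ _⟩
  · rw [← rkd, Module.finrank_eq_card_basis b3]

end Pool.Agent.H28.FS
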